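import Pool.Agent.Helper53.PT.GoalsB

/-! # ECMP: comparison with the uniform vector (project PT, MP_705522_gt) -/

set_option autoImplicit false

namespace Pool.Agent.Helper16.PT

open Pool.Agent.Helper53.PT MeasureTheory Set Filter Topology

/-- Shifted inverse squares are summable. -/
theorem summable_inv_sq (N : ℕ) : Summable fun i : ℕ => (1 : ℝ) / ((i : ℝ) + N + 1) ^ 2 := by
  have h : Summable fun i : ℕ => (1 : ℝ) / (i : ℝ) ^ 2 :=
    Real.summable_one_div_nat_pow.2 (by norm_num)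
  have h2 := (summable_nat_add_iff (N + 1)).2 h
  refine h2.congr fun i => ?_
  push_cast
  ring

/-- Tail of the inverse squares. -/
theorem tail_inv_sq (N : ℕ) : ∑' i : ℕ, (1 : ℝ) / ((i : ℝ) + N + 1) ^ 2 ≤ 1 / ((N : ℝ) + 1 / 2) := by
  refine (summable_inv_sq N).tsum_le_of_sum_range_le fun m => ?_
  have key : ∀ m : ℕ, ∑ i ∈ Finset.range m, (1 : ℝ) / ((i : ℝ) + N + 1) ^ 2 ≤
      1 / ((N : ℝ) + 1 / 2) - 1 / ((m : ℝ) + N + 1 / 2) := by
    intro m
    induction m with
    | zero => simp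
    | succ m ih =>
      rw [Finset.sum_range_succ]
      have h1 : (0 : ℝ) < (m : ℝ) + N + 1 / 2 := by positivity
      have h2 : (0 : ℝ) < ((m + 1 : ℕ) : ℝ) + N + 1 / 2 := by positivity
      have h3 : (0 : ℝ) < (m : ℝ) + N + 1 := by positivity
      have h4 : (1 : ℝ) / ((m : ℝ) + N + 1) ^ 2 ≤
          1 / ((m : ℝ) + N + 1 / 2) - 1 / (((m + 1 : ℕ) : ℝ) + N + 1 / 2) := by
        rw [div_sub_div _ _ h1.ne' h2.ne', div_le_div_iff₀ (by positivity) (by positivity)]
        push_cast
        nlinarith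
      linarith
  have h5 : (0 : ℝ) ≤ 1 / ((m : ℝ) + N + 1 / 2) := by positivity
  linarith [key m]

theorem sum_Icc_range (g : ℕ → ℝ) (N : ℕ) :
    ∑ i ∈ Finset.Icc 1 N, g i = ∑ i ∈ Finset.range N, g (i + 1) := by
  induction N with
  | zero => simp
  | succ N ih => rw [Finset.sum_Icc_succ_top (by omega), ih, Finset.sum_range_succ]

/-- Splitting off the first terms. -/
theorem split_sum (a : ℕ → ℝ) (N : ℕ)
    (hs : Summable fun i : ℕ => a (i + 1) / ((i : ℝ) + 1) ^ 2) :
    ∑' i : ℕ, a (i + 1) / ((i : ℝ) + 1) ^ 2 = ∑ i ∈ Finset.Icc 1 N, a i / (i : ℝ) ^ 2 +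
      ∑' i : ℕ, a (i + N + 1) / ((i : ℝ) + N + 1) ^ 2 := by
  rw [← hs.sum_add_tsum_nat_add N]
  congr 1
  · rw [sum_Icc_range]
    refine Finset.sum_congr rfl fun i _ => ?_
    push_cast
    ring
  · refine tsum_congr fun i => ?_
    push_cast
    ring

theorem summable_of_le_one (a : ℕ → ℝ) (h : ∀ i, |a i| ≤ 1) :
    Summable fun i : ℕ => a (i + 1) / ((i : ℝ) + 1) ^ 2 := by
  have h0 := summable_inv_sq 0
  refine Summable.of_norm_bounded h0 fun i => ?_
  rw [Real.norm_eq_abs, abs_div, abs_of_nonneg (by positivity : (0 : ℝ) ≤ ((i : ℝ) + 1) ^ 2)]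
  push_cast
  rw [add_zero]
  exact div_le_div_of_nonneg_right (h _) (by positivity)

theorem prod_first (n N' : ℕ) (h : N' ≤ n) (c : ℝ) :
    ∏ i : Fin n, (if (i : ℕ) < N' then c else 1) = c ^ N' := by
  rw [Fin.prod_univ_eq_prod_range (fun i => if i < N' then c else 1) n,
    ← Finset.prod_subset (Finset.range_subset_range.2 h) (f := fun i => if i < N' then c else 1)
      (fun x _ hx => by rw [Finset.mem_range] at hx; rw [if_neg hx]),
    Finset.prod_congr rfl (fun x hx => if_pos (Finset.mem_range.1 hx)), Finset.prod_const,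
    Finset.card_range]

theorem sum_first (n N' : ℕ) (h : N' ≤ n) (c : ℝ) :
    ∑ i : Fin n, (if (i : ℕ) < N' then c else 0) = N' * c := by
  rw [Fin.sum_univ_eq_sum_range (fun i => if i < N' then c else 0) n,
    ← Finset.sum_subset (Finset.range_subset_range.2 h) (f := fun i => if i < N' then c else 0)
      (fun x _ hx => by rw [Finset.mem_range] at hx; rw [if_neg hx]),
    Finset.sum_congr rfl (fun x hx => if_pos (Finset.mem_range.1 hx)), Finset.sum_const,
    Finset.card_range, nsmul_eq_mul]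

theorem gECMP : GECMP := by
  intro θ h0 h1
  refine ⟨?_, ?_, ?_⟩
  · intro n N' t hN1 hNn hS T p hT hp1 hp2 hp3 hlt hmin
    obtain ⟨-, hPP, hsum, -, hlow⟩ := aHS h0 h1 t hS
    have hN0 : (0 : ℝ) < N' := by exact_mod_cast hN1
    set s : Fin n → ℝ := fun i => if (i : ℕ) < N' then 1 / (N' : ℝ) else 0 with hs
    have hsS : Sx s := by
      refine ⟨fun i => ?_, ?_⟩
      · rw [hs]; dsimp only
        split_ifs
        · positivity
        · exact le_rfl
      · rw [hs, sum_first n N' hNn]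
        field_simp
    obtain ⟨-, -, -, hup, -⟩ := aHS h0 h1 s hsS
    have hPs : ∀ ξ, PP θ s ξ = f0 θ (ξ ^ 2 / N') ^ N' := by
      intro ξ
      rw [← prod_first n N' hNn]
      unfold PP
      refine Finset.prod_congr rfl fun i _ => ?_
      rw [hs]; dsimp only
      split_ifs
      · congr 1; ring
      · rw [zero_mul, f0_zero h0 h1]
    have hG := hmin.2 s hsS
    have hT2 : T ≤ ∑' i : ℕ, PP θ s (i + 1) / ((i : ℝ) + 1) ^ 2 := by
      refine hT.trans (le_of_eq (tsum_congr fun i => ?_))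
      rw [hPs]
    have hsplit := split_sum (fun k => PP θ t k) 15 (by
      refine hsum.congr fun i => ?_
      push_cast
      rfl)
    have hp16 : 0 ≤ p 16 := (abs_nonneg _).trans (hp3 16 le_rfl)
    have htail : ∑' i : ℕ, PP θ t ((i + 15 + 1 : ℕ) : ℝ) / ((i : ℝ) + (15 : ℕ) + 1) ^ 2 ≤
        0.0646 * p 16 := by
      have h2 : ∑' i : ℕ, PP θ t ((i + 15 + 1 : ℕ) : ℝ) / ((i : ℝ) + (15 : ℕ) + 1) ^ 2 ≤
          ∑' i : ℕ, p 16 * (1 / ((i : ℝ) + (15 : ℕ) + 1) ^ 2) := by
        refine Summable.tsum_le_tsum (fun i => ?_) ?_ ((summable_inv_sq 15).mul_left _)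
        · rw [mul_one_div]
          exact div_le_div_of_nonneg_right ((le_abs_self _).trans (hp3 _ (by omega)))
            (by positivity)
        · have h3 := (summable_nat_add_iff 15).2 hsum
          refine h3.congr fun i => ?_
          push_cast
          ring_nf
      rw [tsum_mul_left] at h2
      have h4 := tail_inv_sq 15
      have h5 := mul_le_mul_of_nonneg_left h4 hp16
      have h6 : (1 : ℝ) / ((15 : ℕ) + 1 / 2) ≤ 0.0646 := by norm_num
      have h7 := mul_le_mul_of_nonneg_left h6 hp16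
      linarith
    have hfirst : ∑ i ∈ Finset.Icc (1 : ℕ) 15, PP θ t (i : ℝ) / (i : ℝ) ^ 2 ≤
        ∑ i ∈ Finset.Icc (1 : ℕ) 15, p i / (i : ℝ) ^ 2 := by
      refine Finset.sum_le_sum fun i hi => ?_
      rw [Finset.mem_Icc] at hi
      refine div_le_div_of_nonneg_right ?_ (by positivity)
      rcases Nat.lt_or_ge 8 i with h | h
      · exact (le_abs_self _).trans (hp2 i (by omega) hi.2)
      · exact hp1 i hi.1 h
    have hcast : ∑' i : ℕ, PP θ t ((i : ℝ) + 1) / ((i : ℝ) + 1) ^ 2 =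
        ∑' i : ℕ, PP θ t ((i + 1 : ℕ) : ℝ) / ((i : ℝ) + 1) ^ 2 := by
      refine tsum_congr fun i => ?_
      push_cast
      rfl
    rw [hcast, hsplit] at hlow
    linarith
  · intro n hn L U hL hU hcase
    have hn0 : (0 : ℝ) < n := by exact_mod_cast hn
    set a : ℕ → ℝ := fun k => f0 θ ((k : ℝ) ^ 2 / n) ^ n with ha
    have ha1 : ∀ k, |a k| ≤ 1 := by
      intro k
      rw [ha]; dsimp only
      rw [abs_pow]
      exact pow_le_one₀ (abs_nonneg _) (aBD h0 h1 (by positivity)).1
    have hsum := summable_of_le_one a ha1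
    have hsplit := split_sum a 11 hsum
    have hcast : ∑' i : ℕ, f0 θ (((i : ℝ) + 1) ^ 2 / n) ^ n / ((i : ℝ) + 1) ^ 2 =
        ∑' i : ℕ, a (i + 1) / ((i : ℝ) + 1) ^ 2 := by
      refine tsum_congr fun i => ?_
      rw [ha]
      push_cast
      rfl
    rw [hcast, hsplit]
    have hfirst : ∑ i ∈ Finset.Icc 1 11, L i / (i : ℝ) ^ 2 ≤
        ∑ i ∈ Finset.Icc 1 11, a i / (i : ℝ) ^ 2 := by
      refine Finset.sum_le_sum fun i hi => ?_
      rw [Finset.mem_Icc] at hi
      exact div_le_div_of_nonneg_right (hL i hi.1 hi.2) (by positivity)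
    have htail : -(0.09 * U) ≤ ∑' i : ℕ, a (i + 11 + 1) / ((i : ℝ) + (11 : ℕ) + 1) ^ 2 := by
      have h2 : ∑' i : ℕ, -U * (1 / ((i : ℝ) + (11 : ℕ) + 1) ^ 2) ≤
          ∑' i : ℕ, a (i + 11 + 1) / ((i : ℝ) + (11 : ℕ) + 1) ^ 2 := by
        refine Summable.tsum_le_tsum (fun i => ?_) ((summable_inv_sq 11).mul_left _) ?_
        · rw [mul_one_div]
          refine div_le_div_of_nonneg_right ?_ (by positivity)
          rcases hcase with h | h
          · have : 0 ≤ a (i + 11 + 1) := h.pow_nonneg _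
            linarith
          · have h3 := h (i + 11 + 1) (by omega)
            rw [← abs_pow] at h3
            exact (neg_le_neg h3).trans (neg_abs_le _)
        · have h3 := (summable_nat_add_iff 11).2 hsum
          refine h3.congr fun i => ?_
          push_cast
          ring_nf
      rw [tsum_mul_left] at h2
      have h4 := tail_inv_sq 11
      have h5 := mul_le_mul_of_nonneg_left h4 hU
      have h6 : (1 : ℝ) / ((11 : ℕ) + 1 / 2) ≤ 0.09 := by norm_num
      have h7 := mul_le_mul_of_nonneg_left h6 hU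
      linarith
    linarith
  · have h2 := (aPAIR h0 h1 (a := 1 / 2) (b := 1 / 2) (by norm_num) (by norm_num)).2
    have e1 : G θ ![(1 / 2 : ℝ), 1 / 2] =
        ∫ ξ in Ioi (0 : ℝ), (1 - f0 θ (1 / 2 * ξ ^ 2) * f0 θ (1 / 2 * ξ ^ 2)) / ξ ^ 2 := by
      unfold G PP
      simp only [Fin.prod_univ_two, Matrix.cons_val_zero, Matrix.cons_val_one]
    rw [e1, h2]
    congr 1
    rw [← two_mul, Real.mul_rpow (by norm_num) (by positivity), ← Real.rpow_mul (by norm_num),
      one_div (2 : ℝ), Real.inv_rpow (by norm_num), ← Real.rpow_neg (by norm_num),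
      ← Real.rpow_add (by norm_num)]
    congr 1
    field_simp
    ring

end Pool.Agent.Helper16.PT
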