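import Pool.Agent.Helper53.PT.GoalsD
import Pool.Agent.Helper90.PT.SQ

/-!
# Project PT, packet RSJ: one step of the product bound
-/

set_option autoImplicit false

namespace Pool.Agent.Helper16.PT

open Pool.Agent.Helper53.PT

theorem frc_eq {α : Type} (n : ℕ) (f : ℕ → α) : N.frc n f = f n := by
  cases n <;> rfl

theorem ble_t {a b : ℕ} (h : a ≤ b) : Nat.ble a b = true := Nat.ble_eq.mpr h

theorem ble_f {a b : ℕ} (h : ¬ a ≤ b) : Nat.ble a b = false := by
  rw [Bool.eq_false_iff, ne_eq, Nat.ble_eq]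
  exact h

theorem beq_t {a b : ℕ} (h : a = b) : Nat.beq a b = true := Nat.beq_eq.mpr h

theorem beq_f {a b : ℕ} (h : ¬ a = b) : Nat.beq a b = false := by
  rw [Bool.eq_false_iff, ne_eq, Nat.beq_eq]
  exact h

theorem mx_eq (a b : ℕ) : N.mx a b = max a b := by
  unfold N.mx
  by_cases h : a ≤ b
  · rw [ble_t h, max_eq_right h]
    rfl
  · rw [ble_f h, max_eq_left (by omega)]
    rfl

theorem mn_eq (a b : ℕ) : N.mn a b = min a b := by
  unfold N.mn
  by_cases h : a ≤ b
  · rw [ble_t h, min_eq_left h]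
    rfl
  · rw [ble_f h, min_eq_right (by omega)]
    rfl

theorem aR_mono {a b : ℕ} (h : a ≤ b) : aR a ≤ aR b := by
  unfold aR
  have : (a : ℝ) ≤ b := Nat.cast_le.mpr h
  gcongr

theorem vR_mono {a b : ℕ} (h : a ≤ b) : vR a ≤ vR b := by
  unfold vR
  have : (a : ℝ) ≤ b := Nat.cast_le.mpr h
  gcongr

theorem aR_nonneg (a : ℕ) : 0 ≤ aR a := by
  unfold aR
  positivity

theorem vR_nonneg (a : ℕ) : 0 ≤ vR a := by
  unfold vR
  positivity

theorem mulL_le (m X : ℕ) : aR (N.mulL m X) ≤ aR m * ((X : ℝ) / 64) := by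
  unfold N.mulL aR
  have h : Nat.shiftRight (Nat.mul m X) 6 * 64 ≤ m * X := by
    change (m * X) >>> 6 * 64 ≤ m * X
    rw [Nat.shiftRight_eq_div_pow]
    exact Nat.div_mul_le_self _ _
  have h' : ((Nat.shiftRight (Nat.mul m X) 6 : ℕ) : ℝ) * 64 ≤ m * X := by exact_mod_cast h
  rw [div_mul_div_comm, div_le_div_iff₀ (by positivity) (by positivity)]
  nlinarith

theorem le_mulU (m X : ℕ) : aR m * ((X : ℝ) / 64) ≤ aR (N.mulU m X) := by
  unfold N.mulU aR
  have h : m * X ≤ Nat.shiftRight (Nat.add (Nat.mul m X) 63) 6 * 64 := by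
    change m * X ≤ (m * X + 63) >>> 6 * 64
    rw [Nat.shiftRight_eq_div_pow]
    omega
  have h' : (m : ℝ) * X ≤ ((Nat.shiftRight (Nat.add (Nat.mul m X) 63) 6 : ℕ) : ℝ) * 64 := by exact_mod_cast h
  rw [div_mul_div_comm, div_le_div_iff₀ (by positivity) (by positivity)]
  nlinarith

/-- `U P ≤` the rounded product -/
theorem vR_mul_le (U P : ℕ) : vR U * vR P ≤ vR (Nat.succ (Nat.shiftRight (Nat.mul U P) 40)) := by
  unfold vR
  have h : U * P ≤ Nat.succ (Nat.shiftRight (Nat.mul U P) 40) * 2 ^ 40 := by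
    change U * P ≤ ((U * P) >>> 40 + 1) * 2 ^ 40
    rw [Nat.shiftRight_eq_div_pow]
    have := Nat.lt_div_mul_add (a := U * P) (b := 2 ^ 40) (by positivity)
    rw [add_mul, one_mul]
    exact this.le
  have h' : (U : ℝ) * P ≤ ((Nat.succ (Nat.shiftRight (Nat.mul U P) 40) : ℕ) : ℝ) * 2 ^ 40 := by
    exact_mod_cast h
  rw [div_mul_div_comm, div_le_div_iff₀ (by positivity) (by positivity)]
  nlinarith

theorem yl_ok {D : N.Tab} {θ z : ℝ} (hF : TF D θ z) (r m0 X0 j : ℕ) (hj : 1 ≤ j) :
    let yl := N.mx (N.zL D) (cond (Nat.ble r j) (cond (Nat.beq r j) (Nat.div (N.mulL m0 X0) j) 0)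
      (Nat.div (Nat.sub (N.mulL m0 X0) (Nat.mul (Nat.sub r j) (N.zR D))) j))
    aR yl ≤ z ∨ (0 < r ∧ j * aR yl ≤ aR m0 * ((X0 : ℝ) / 64) - ((r : ℝ) - j) * z) := by
  intro yl
  have hz0 : 0 < z := hF.fa.z0
  have hzl : aR (N.zL D) < z := hF.zl
  have hzr : z < aR (N.zR D) := hF.zr
  have hmul := mulL_le m0 X0
  set A := N.mulL m0 X0 with hA
  have hyl : yl = N.mx (N.zL D) (cond (Nat.ble r j) (cond (Nat.beq r j) (Nat.div A j) 0)
      (Nat.div (Nat.sub A (Nat.mul (Nat.sub r j) (N.zR D))) j)) := rfl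
  set B := (cond (Nat.ble r j) (cond (Nat.beq r j) (Nat.div A j) 0)
      (Nat.div (Nat.sub A (Nat.mul (Nat.sub r j) (N.zR D))) j)) with hB
  rw [hyl, mx_eq]
  rcases le_total B (N.zL D) with h | h
  · left
    rw [max_eq_left h]
    exact hzl.le
  · rw [max_eq_right h]
    have hdiv : ∀ a : ℕ, (j : ℝ) * aR (a / j) ≤ aR a := by
      intro a
      unfold aR
      have h1 : j * (a / j) ≤ a := Nat.mul_div_le a j
      have h2 : (j : ℝ) * ((a / j : ℕ) : ℝ) ≤ a := by exact_mod_cast h1
      rw [← mul_div_assoc]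
      gcongr
    by_cases hrj : r ≤ j
    · by_cases hrj' : r = j
      · right
        have hBe : B = A / j := by
          rw [hB, ble_t hrj, beq_t hrj']
          rfl
        refine ⟨by omega, ?_⟩
        rw [hBe, hrj', sub_self, zero_mul, sub_zero]
        exact (hdiv A).trans hmul
      · left
        have hBe : B = 0 := by
          rw [hB, ble_t hrj, beq_f hrj']
          rfl
        rw [hBe]
        unfold aR
        simp [hz0.le]
    · have hBe : B = (A - (r - j) * N.zR D) / j := by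
        rw [hB, ble_f hrj]
        rfl
      rw [hBe]
      by_cases hc : (r - j) * N.zR D ≤ A
      · right
        refine ⟨by omega, (hdiv _).trans ?_⟩
        have h1 : aR (A - (r - j) * N.zR D) = aR A - ((r : ℝ) - j) * aR (N.zR D) := by
          unfold aR
          rw [Nat.cast_sub hc, Nat.cast_mul, Nat.cast_sub (by omega)]
          ring
        rw [h1]
        have h2 : 0 ≤ (r : ℝ) - j := by
          have : (j : ℝ) ≤ r := by exact_mod_cast (by omega : j ≤ r)
          linarith
        nlinarith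
      · left
        rw [Nat.sub_eq_zero_of_le (by omega), Nat.zero_div]
        unfold aR
        simp [hz0.le]

theorem U0_ok {D : N.Tab} {θ z : ℝ} (hF : TF D θ z) (x : ℕ) (y : ℝ) (h : aR x ≤ y) :
    |f0 θ y| ≤ vR (N.fld D.U0 (N.idx x)) := by
  have h1 := (hF.uu x y h).2
  unfold N.u64 at h1
  by_cases hx : 4294967296 ≤ x
  · rw [ble_t hx] at h1
    have h2 : N.idx x = 1152 := by
      unfold N.idx
      rw [ble_t hx]
      rfl
    rw [h2]
    exact h1.trans (vR_mono (hF.uc 1152 le_rfl))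
  · rw [ble_f hx] at h1
    exact h1

theorem UOK_ok (hPow : GPOW) {D : N.Tab} {θ z : ℝ} (hF : TF D θ z) (j Mp yl yu tX x1 : ℕ) (Y1 : ℝ)
    (hY : Y1 ≤ aR tX) (hM : vR (N.mM D) ^ (j - 1) ≤ vR Mp) :
    UOK θ z (xR D.I.kW) j (aR yl) (aR yu) Y1 (aR x1)
      (vR (cond (Nat.beq j 1) (N.fst D yu tX)
        (N.frc (Nat.succ (Nat.shiftRight (Nat.mul Mp (N.mn (N.mM D) (N.fld D.U0 (N.idx yu)))) 40)) (fun u0 =>
          cond (Nat.ble x1 (N.xgN D.I.kW)) (N.mn u0 (N.powU (N.fst D yl tX) j)) u0)))) := by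
  by_cases hj : j = 1
  · left
    rw [beq_t hj]
    exact ⟨hj, fun y h1 h2 h3 => hF.fst yu tX y h1 h2 (h3.trans hY)⟩
  · rw [beq_f hj, frc_eq]
    set u0 := Nat.succ (Nat.shiftRight (Nat.mul Mp (N.mn (N.mM D) (N.fld D.U0 (N.idx yu)))) 40) with hu0
    have hcase : ∀ U : ℝ, vR u0 ≤ U → UOK θ z (xR D.I.kW) j (aR yl) (aR yu) Y1 (aR x1) U := by
      intro U hU
      right
      left
      refine ⟨vR (N.mM D), vR (N.mn (N.mM D) (N.fld D.U0 (N.idx yu))), hF.mb, ?_, ?_⟩
      · intro y h1 h2
        rw [mn_eq]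
        rcases le_total (N.mM D) (N.fld D.U0 (N.idx yu)) with h | h
        · rw [min_eq_left h]
          exact hF.mb y h1
        · rw [min_eq_right h]
          exact U0_ok hF yu y h2
      · refine le_trans ?_ hU
        refine le_trans (mul_le_mul_of_nonneg_right hM (vR_nonneg _)) ?_
        exact vR_mul_le _ _
    by_cases hx : x1 ≤ N.xgN D.I.kW
    · rw [ble_t hx]
      change UOK θ z (xR D.I.kW) j (aR yl) (aR yu) Y1 (aR x1) (vR (N.mn u0 (N.powU (N.fst D yl tX) j)))
      rw [mn_eq]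
      rcases le_total u0 (N.powU (N.fst D yl tX) j) with h | h
      · rw [min_eq_left h]
        exact hcase _ le_rfl
      · rw [min_eq_right h]
        right
        right
        refine ⟨aR_mono hx, vR (N.fst D yl tX), ?_, (hPow.1 _ _).2⟩
        intro y h1 h2 h3
        exact hF.fst yl tX y h1 h2 (h3.trans hY)
    · rw [ble_f hx]
      exact hcase _ le_rfl

theorem POK_ok (hExp : GEXP) (hPow : GPOW) {D : N.Tab} {θ z : ℝ} (hF : TF D θ z) (r m0 X0 j t : ℕ) :
    POK θ z r j (aR m0 - j * aR t) ((X0 : ℝ) / 64)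
      (vR (cond (Nat.beq r j) 1099511627776
        (N.frc (N.expUp (Nat.shiftLeft (N.mulL (Nat.sub m0 (Nat.mul j t)) X0) 13)) (fun E => cond (Nat.ble r j) E
          (N.mn E (N.powU (N.pos0 D (Nat.div (N.mulL (Nat.sub m0 (Nat.mul j t)) X0) (Nat.sub r j)))
            (Nat.sub r j))))))) := by
  by_cases hrj : r = j
  · rw [beq_t hrj]
    right
    left
    change 1 ≤ vR 1099511627776
    unfold vR
    norm_num
  · rw [beq_f hrj, frc_eq]
    set rm := m0 - j * t with hrm
    have hrm' : Nat.sub m0 (Nat.mul j t) = rm := rfl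
    rw [hrm']
    set A := N.mulL rm X0 with hA
    have hAle : aR A ≤ aR rm * ((X0 : ℝ) / 64) := mulL_le rm X0
    set v := Nat.shiftLeft A 13 with hv
    have hvR : vR v = aR A / 2 := by
      have h1 : v = A * 2 ^ 13 := by
        rw [hv]
        change A <<< 13 = A * 2 ^ 13
        rw [Nat.shiftLeft_eq]
      rw [h1]
      unfold vR aR
      push_cast
      ring
    have hE := (hExp v).1
    set E := N.expUp v with hEd
    have hX0 : (0 : ℝ) ≤ (X0 : ℝ) / 64 := by positivity
    have hEok : POK θ z r j (aR m0 - j * aR t) ((X0 : ℝ) / 64) (vR E) := by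
      by_cases hc : j * t ≤ m0
      · left
        have h1 : aR rm = aR m0 - j * aR t := by
          rw [hrm]
          unfold aR
          rw [Nat.cast_sub hc, Nat.cast_mul]
          ring
        refine le_trans ?_ hE
        rw [hvR, ← h1]
        apply Real.exp_le_exp.mpr
        linarith
      · right
        left
        have h1 : rm = 0 := by omega
        have h2 : v = 0 := by
          rw [hv, hA, h1]
          unfold N.mulL
          change ((0 * X0) >>> 6) <<< 13 = 0
          simp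
        rw [h2] at hE
        have h3 : vR 0 = 0 := by
          unfold vR
          simp
        rw [h3, neg_zero, Real.exp_zero] at hE
        exact hE
    by_cases hle : r ≤ j
    · rw [ble_t hle]
      exact hEok
    · rw [ble_f hle]
      change POK θ z r j (aR m0 - j * aR t) ((X0 : ℝ) / 64)
        (vR (N.mn E (N.powU (N.pos0 D (A / (r - j))) (r - j))))
      rw [mn_eq]
      rcases le_total E (N.powU (N.pos0 D (A / (r - j))) (r - j)) with h | h
      · rw [min_eq_left h]
        exact hEok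
      · rw [min_eq_right h]
        right
        right
        have hjr : j < r := by omega
        refine ⟨hjr, vR (N.pos0 D (A / (r - j))), vR_nonneg _, ?_, (hPow.1 _ _).2⟩
        intro y hy0 hy hyz
        refine hF.pos _ y hy0 ?_ hyz
        have hrjpos : (0 : ℝ) < (r : ℝ) - j := by
          have : (j : ℝ) < r := by exact_mod_cast hjr
          linarith
        have h1 : ((r : ℝ) - j) * aR (A / (r - j)) ≤ aR A := by
          unfold aR
          have h2 : (r - j) * (A / (r - j)) ≤ A := Nat.mul_div_le A (r - j)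
          have h3 : (((r - j : ℕ) : ℝ)) * ((A / (r - j) : ℕ) : ℝ) ≤ A := by exact_mod_cast h2
          rw [Nat.cast_sub hjr.le] at h3
          rw [← mul_div_assoc]
          gcongr
        by_cases hc : j * t ≤ m0
        · have h4 : aR rm = aR m0 - j * aR t := by
            rw [hrm]
            unfold aR
            rw [Nat.cast_sub hc, Nat.cast_mul]
            ring
          rw [← h4] at hy
          have h5 : ((r : ℝ) - j) * aR (A / (r - j)) ≤ ((r : ℝ) - j) * y := by linarith
          exact le_of_mul_le_mul_left h5 hrjpos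
        · have h4 : rm = 0 := by omega
          have h5 : A = 0 := by
            rw [hA, h4]
            unfold N.mulL
            change ((0 * X0) >>> 6) = 0
            simp
          rw [h5, Nat.zero_div]
          have h6 : aR 0 = 0 := by
            unfold aR
            simp
          rw [h6]
          exact hy0

theorem rsj0 (hSQ : GSQ) : GRSJ := by
  intro hTau hExp hPow D θ z hF r cap m0 m1 Q ul X0 X1 x1 j Mp best hj hM
  have hT := hTau hSQ r j cap m0 m1 Q hj
  unfold N.restJ
  rw [frc_eq, frc_eq]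
  set t := N.tau r j cap m0 m1 Q with ht
  set tX := N.mulU t X1 with htX
  have htX' : aR t * ((X1 : ℝ) / 64) ≤ aR tX := le_mulU t X1
  by_cases hc : tX ≤ N.zL D
  · rw [ble_t hc]
    refine ⟨le_rfl, Or.inl ⟨aR t, aR_nonneg t, hT, htX'.trans ((aR_mono hc).trans ?_)⟩⟩
    exact (show aR (N.zL D) < z from hF.zl).le
  · rw [ble_f hc, cond_false]
    rw [frc_eq, frc_eq, frc_eq]
    have hyl := yl_ok hF r m0 X0 j hj
    simp only at hyl
    set yl := N.mx (N.zL D) (cond (Nat.ble r j) (cond (Nat.beq r j) (Nat.div (N.mulL m0 X0) j) 0)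
      (Nat.div (Nat.sub (N.mulL m0 X0) (Nat.mul (Nat.sub r j) (N.zR D))) j)) with hyld
    set yu := N.mx yl (N.mulL ul X0) with hyud
    have hyu : aR yu ≤ aR yl ∨ aR yu ≤ z ∨ aR yu ≤ aR ul * ((X0 : ℝ) / 64) := by
      rw [hyud, mx_eq]
      rcases le_total yl (N.mulL ul X0) with h | h
      · rw [max_eq_right h]
        right
        right
        exact mulL_le ul X0
      · rw [max_eq_left h]
        left
        exact le_rfl
    have hU := UOK_ok hPow hF j Mp yl yu tX x1 (aR t * ((X1 : ℝ) / 64)) htX' hM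
    set U := cond (Nat.beq j 1) (N.fst D yu tX)
        (N.frc (Nat.succ (Nat.shiftRight (Nat.mul Mp (N.mn (N.mM D) (N.fld D.U0 (N.idx yu)))) 40)) (fun u0 =>
          cond (Nat.ble x1 (N.xgN D.I.kW)) (N.mn u0 (N.powU (N.fst D yl tX) j)) u0)) with hUd
    by_cases hUb : U ≤ best
    · rw [ble_t hUb]
      refine ⟨le_rfl, Or.inr ⟨aR t, aR yl, aR yu, vR U, 1, aR_nonneg t, hT, hyl, hyu, hU, ?_, ?_⟩⟩
      · right
        left
        exact le_rfl
      · rw [mul_one]
        exact vR_mono hUb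
    · rw [ble_f hUb, cond_false]
      rw [frc_eq]
      have hP := POK_ok hExp hPow hF r m0 X0 j t
      set Pn := cond (Nat.beq r j) 1099511627776
        (N.frc (N.expUp (Nat.shiftLeft (N.mulL (Nat.sub m0 (Nat.mul j t)) X0) 13)) (fun E => cond (Nat.ble r j) E
          (N.mn E (N.powU (N.pos0 D (Nat.div (N.mulL (Nat.sub m0 (Nat.mul j t)) X0) (Nat.sub r j)))
            (Nat.sub r j))))) with hPn
      have hmx : N.mx best (Nat.succ (Nat.shiftRight (Nat.mul U Pn) 40)) =
          max best (Nat.succ (Nat.shiftRight (Nat.mul U Pn) 40)) := mx_eq _ _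
      rw [hmx]
      refine ⟨le_max_left _ _, Or.inr ⟨aR t, aR yl, aR yu, vR U, vR Pn, aR_nonneg t, hT, hyl, hyu, hU, hP, ?_⟩⟩
      exact (vR_mul_le U Pn).trans (vR_mono (le_max_right _ _))

/-- packet RSJ -/
theorem gRSJ : GRSJ := rsj0 Pool.Agent.Helper90.PT.gSQ

end Pool.Agent.Helper16.PT
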